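import Pool.Agent.V11332.LS6
import Pool.Agent.V11332.LS7

set_option autoImplicit false

/-!
# Gaussian tilts of logconcave measures: the log-Sobolev constant of `πγ_h` is not
# controlled by that of `π`
-/

namespace Pool.Agent.Results.MP_13a01f_pr.TiltNotComparable

open MeasureTheory
open scoped ENNReal Pointwise

/-- Euclidean space of dimension `n`. -/
abbrev E (n : ℕ) := EuclideanSpace ℝ (Fin n)

/-- `Ent_μ[g] = E_μ[g log g] - E_μ[g] log E_μ[g]`. -/
noncomputable def Ent {n : ℕ} (μ : Measure (E n)) (g : E n → ℝ) : ℝ :=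
  ∫ x, g x * Real.log (g x) ∂μ - (∫ x, g x ∂μ) * Real.log (∫ x, g x ∂μ)

/-- The log-Sobolev constant: the smallest `C ∈ [0, ∞]` with
`Ent_μ[f²] ≤ C E_μ ‖∇f‖²` for all smooth `f : ℝⁿ → ℝ`. -/
noncomputable def CLSI {n : ℕ} (μ : Measure (E n)) : ℝ≥0∞ :=
  sInf {C : ℝ≥0∞ | ∀ f : E n → ℝ, ContDiff ℝ (⊤ : ℕ∞) f →
    ENNReal.ofReal (Ent μ fun x => f x ^ 2) ≤ C * ∫⁻ x, ‖gradient f x‖ₑ ^ 2 ∂μ}

/-- `π (λ A + (1 - λ) B) ≥ π(A)^λ π(B)^(1 - λ)` for all nonempty compact `A`, `B` and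
`λ ∈ [0, 1]`. -/
def LogConcave {n : ℕ} (π : Measure (E n)) : Prop :=
  ∀ A B : Set (E n), IsCompact A → IsCompact B → A.Nonempty → B.Nonempty →
    ∀ s ∈ Set.Icc (0 : ℝ) 1, π A ^ s * π B ^ (1 - s) ≤ π (s • A + (1 - s) • B)

/-- The Gaussian tilt `πγ_h`: the probability measure with density proportional to
`exp (- ‖x‖² / (2 h))` with respect to `π`. -/
noncomputable def gaussTilt {n : ℕ} (π : Measure (E n)) (h : ℝ) : Measure (E n) :=
  π.tilted fun x => -‖x‖ ^ 2 / (2 * h)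

/-- **No comparison of the log-Sobolev constants.** (1) For every constant `C` there are a
dimension `n ≥ 1`, a compactly supported logconcave probability measure `π` on `ℝⁿ` with
barycentre `0`, and `h > 0`, such that `C_LSI(πγ_h) > C · C_LSI(π)`. (2) Quantitative form: with
absolute constants `c, K > 0`, for every integer `R ≥ 1` such a `π` exists with
`C_LSI(π) ≤ K R` and `C_LSI(πγ_h) ≥ c R²`, `h = R²`, `n = 9 R⁶ + 1`. -/
theorem result :
    (∀ C : NNReal, ∃ (n : ℕ) (π : Measure (E n)) (h : ℝ), 1 ≤ n ∧ IsProbabilityMeasure π ∧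
      LogConcave π ∧ (∃ S : Set (E n), IsCompact S ∧ π Sᶜ = 0) ∧ (∀ i, ∫ x, x i ∂π = 0) ∧
      0 < h ∧ IsProbabilityMeasure (gaussTilt π h) ∧
      (C : ℝ≥0∞) * CLSI π < CLSI (gaussTilt π h)) ∧
    (∃ c K : ℝ, 0 < c ∧ 0 < K ∧ ∀ R : ℕ, 1 ≤ R → ∃ π : Measure (E (9 * R ^ 6 + 1)),
      IsProbabilityMeasure π ∧ LogConcave π ∧
      (∃ S : Set (E (9 * R ^ 6 + 1)), IsCompact S ∧ π Sᶜ = 0) ∧ (∀ i, ∫ x, x i ∂π = 0) ∧
      CLSI π ≤ ENNReal.ofReal (K * R) ∧
      ENNReal.ofReal (c * R ^ 2) ≤ CLSI (gaussTilt π ((R : ℝ) ^ 2))) := by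
  have main : ∀ R : ℕ, 1 ≤ R → ∃ π : Measure (E (9 * R ^ 6 + 1)),
      IsProbabilityMeasure π ∧ LogConcave π ∧
      (∃ S : Set (E (9 * R ^ 6 + 1)), IsCompact S ∧ π Sᶜ = 0) ∧ (∀ i, ∫ x, x i ∂π = 0) ∧
      IsProbabilityMeasure (gaussTilt π ((R : ℝ) ^ 2)) ∧
      CLSI π ≤ ENNReal.ofReal (2000 * Real.exp 2 * R) ∧
      ENNReal.ofReal (Real.exp (-6) / 16 * R ^ 2) ≤ CLSI (gaussTilt π ((R : ℝ) ^ 2)) := by
    intro R hR
    have hl : (1 : ℝ) ≤ R := by exact_mod_cast hR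
    have hN : ((9 * R ^ 6 : ℕ) : ℝ) = 9 * (R : ℝ) ^ 6 := by push_cast; ring
    have hp := Pool.Agent.V11332.LS.pp_prob hl hN
    refine ⟨Pool.Agent.V11332.LS.pp R (9 * R ^ 6), hp, ?_, ?_, ?_, ?_, ?_, ?_⟩
    · intro A B hA hB hA' hB' s hs
      exact Pool.Agent.V11332.LS.pp_logconcave hl hN A B hA hB hA' hB' s hs
    · exact ⟨_, Pool.Agent.V11332.LS.KK_comp, Pool.Agent.V11332.LS.pp_compl hl hN⟩
    · exact Pool.Agent.V11332.LS.pp_mean hl hN
    · exact Pool.Agent.V11332.LS.qq'_prob hl hN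
    · apply sInf_le
      intro f hf
      have hf1 : ContDiff ℝ 1 f := hf.of_le (by exact_mod_cast le_top)
      have h1 := Pool.Agent.V11332.LS.pp_lsi hl hN hf1
      have hfc : Continuous (fderiv ℝ f) := hf1.continuous_fderiv (by norm_num)
      have hgc : Continuous fun x => ‖gradient f x‖ ^ 2 := by
        simp_rw [Pool.Agent.V11332.LS.norm_grad]
        fun_prop
      have hgi := Pool.Agent.V11332.LS.pp_cont_int hl hN hgc
      have h2 : ENNReal.ofReal (∫ x, ‖gradient f x‖ ^ 2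
          ∂(Pool.Agent.V11332.LS.pp (R : ℝ) (9 * R ^ 6))) =
          ∫⁻ x, ‖gradient f x‖ₑ ^ 2 ∂(Pool.Agent.V11332.LS.pp (R : ℝ) (9 * R ^ 6)) := by
        rw [ofReal_integral_eq_lintegral_ofReal hgi
          (Filter.Eventually.of_forall fun x => by positivity)]
        refine lintegral_congr fun x => ?_
        rw [ENNReal.ofReal_pow (norm_nonneg _), ofReal_norm]
      rw [← h2, ← ENNReal.ofReal_mul (by positivity)]
      exact ENNReal.ofReal_le_ofReal h1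
    · apply le_sInf
      intro C hC
      have := Pool.Agent.V11332.LS.tilt_lsi_low hl hN (C := C) hC
      refine le_trans (le_of_eq ?_) this
      congr 1
      ring
  constructor
  · intro C
    obtain ⟨R, hR⟩ := exists_nat_gt ((C : ℝ) * (2000 * Real.exp 2) / (Real.exp (-6) / 16) + 1)
    have hC0 : (0 : ℝ) ≤ C := C.2
    have hq : 0 ≤ (C : ℝ) * (2000 * Real.exp 2) / (Real.exp (-6) / 16) := by positivity
    have hR1 : 1 ≤ R := by
      have : (1 : ℝ) < R := by linarith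
      exact_mod_cast this.le
    obtain ⟨π, h1, h2, h3, h4, h5, h6, h7⟩ := main R hR1
    have hRpos : (0 : ℝ) < R := by exact_mod_cast hR1
    refine ⟨_, π, (R : ℝ) ^ 2, by omega, h1, h2, h3, h4, by positivity, h5, ?_⟩
    refine lt_of_le_of_lt (mul_le_mul_right h6 _) (lt_of_lt_of_le ?_ h7)
    have e : (C : ℝ≥0∞) = ENNReal.ofReal (C : ℝ) := by simp
    rw [e, ← ENNReal.ofReal_mul hC0]
    apply (ENNReal.ofReal_lt_ofReal_iff (by positivity)).2
    have h8 : (C : ℝ) * (2000 * Real.exp 2) / (Real.exp (-6) / 16) < R := by linarith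
    rw [div_lt_iff₀ (by positivity)] at h8
    have h9 := mul_lt_mul_of_pos_right h8 hRpos
    calc (C : ℝ) * (2000 * Real.exp 2 * R) = (C : ℝ) * (2000 * Real.exp 2) * R := by ring
      _ < R * (Real.exp (-6) / 16) * R := h9
      _ = Real.exp (-6) / 16 * R ^ 2 := by ring
  · refine ⟨Real.exp (-6) / 16, 2000 * Real.exp 2, by positivity, by positivity, fun R hR => ?_⟩
    obtain ⟨π, h1, h2, h3, h4, h5, h6, h7⟩ := main R hR
    exact ⟨π, h1, h2, h3, h4, h6, h7⟩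

end Pool.Agent.Results.MP_13a01f_pr.TiltNotComparable
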